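import Pool.Agent.TH707.OB.Polylog

/-!
# How many strings of a random oracle have to be changed to put `P` into polylogarithmic space?

An adversary who knows the random oracle `O` changes, for all large `n`, at most `g n` of the strings
of length at most `n`; the result is the oracle `A` (`Close g O A`).

* If for every `ε > 0` there are infinitely many `n` with `g n ≤ 2 ^ (n ^ ε)` then, for almost every
  `O`, relative to all these `A`, for every `b` some language in `P` is not decided in
  nondeterministic space `n ^ b`, not even with advice of length `2 ^ n / 8`, by algorithms that are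
  built from arbitrary functions of any fixed countable set (`InSpace`).
* Otherwise every oracle `O` can be changed such that, relative to `A`, every language in `PSPACE` is
  read off from the oracle by one question which consists of constants and of the input
  (`OneQuestion`).

So, for every space-bounded class `C` (`SpaceClass`), in particular for polylogarithmic space, the
first condition on `g` decides whether `P` (or `NP`, or `PSPACE`) can be put into `C`.

Proof of the first part. The language is: `x` is in `L` if the string `x v 1 ^ ...` is in `A`, where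
`v` is a pointer of `n ^ (b + 2)` bits that are found at the addresses given by `x`. An algorithm with
`n ^ b` bits of memory and a given advice string has, for all inputs of length `n` together, at most
`2 ^ (n + n ^ b + 1)` possible questions, which do not depend on the oracle; so it hardly ever asks
one of the final questions, and it gives the right answers for all inputs of length `n` with
probability at most `(3 / 4) ^ (2 ^ n)`.
-/

set_option autoImplicit false

namespace Pool.Agent.Results.MP_807b32_lc.ChangedStrings

open Pool.Agent.NPC Pool.Agent.H620R2.Gauge Pool.Agent.TH707.OB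
open Pool.Agent.W900.CH (Close)
open Pool.Agent.H628R3.RO (randomOracle)
open MeasureTheory Filter

theorem result (g : ℕ → ℝ) :
    ((∀ ε : ℝ, 0 < ε → ∃ᶠ n : ℕ in atTop, g n ≤ 2 ^ ((n : ℝ) ^ ε)) →
      (∀ G : Set (List Bool → List Bool), G.Countable →
        ∀ᵐ O ∂randomOracle, ∀ A : Oracle, Close g O A → ∀ b : ℕ, ∃ L, IsP A L ∧
          ¬ InSpace G (fun n => n ^ b) (fun n => 2 ^ n / 8) A L) ∧
      ∀ C, SpaceClass C → ∀ᵐ O ∂randomOracle, ∀ A : Oracle, Close g O A →
        ∃ L, IsP A L ∧ ¬ C A L) ∧
    ((¬ ∀ ε : ℝ, 0 < ε → ∃ᶠ n : ℕ in atTop, g n ≤ 2 ^ ((n : ℝ) ^ ε)) →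
      ∀ O : Oracle, ∃ A : Oracle, Close g O A ∧ (∀ L, IsPSPACE A L → OneQuestion A L) ∧
        ∀ C, SpaceClass C → ∀ L, IsPSPACE A L → C A L) ∧
    SpaceClass PolylogSpace := by
  refine ⟨fun hg => ?_, fun hg O => ?_, spaceClass_polylog⟩
  · have h1 : ∀ G : Set (List Bool → List Bool), G.Countable →
        ∀ᵐ O ∂randomOracle, ∀ A : Oracle, Close g O A → ∀ b : ℕ, ∃ L, IsP A L ∧
          ¬ InSpace G (fun n => n ^ b) (fun n => 2 ^ n / 8) A L := by
      intro G hG
      filter_upwards [(changedB g hG).1 hg] with O hO A hA b
      by_contra hc
      push Not at hc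
      exact hO A hA ⟨b, hc⟩
    refine ⟨h1, fun C hC => ?_⟩
    obtain ⟨-, G, b, hG, h2⟩ := hC
    filter_upwards [h1 G hG] with O hO A hA
    obtain ⟨L, h3, h4⟩ := hO A hA b
    exact ⟨L, h3, fun h => h4 (h2 A L h)⟩
  · obtain ⟨A, h1, h2⟩ := (changedB g Set.countable_empty).2 hg O
    exact ⟨A, h1, h2, fun C hC L hL => hC.1 A L (h2 L hL)⟩

end Pool.Agent.Results.MP_807b32_lc.ChangedStrings
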