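import Pool.Agent.TH707.EO.SpaceAdv

/-!
# How many strings of an oracle have to be changed to put `P` outside small space?

An adversary who knows the oracle `O` changes, for all large `n`, at most `g n` of the strings
of length at most `n`; the result is the oracle `A` (`Close g O A`).

* If `g` is not bounded by a polynomial, then every oracle `O` can be changed such that, relative to
  `A`, for every `b` some language in `P` is not decided in nondeterministic space `n ^ b` with
  polynomial advice, by algorithms that are built from arbitrary functions of any fixed countable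
  set (`InSpace`).
* Otherwise there is an oracle `O` such that, relative to all these `A`, every language in `PSPACE`
  is read off from the oracle by one question which consists of an advice string of polynomial
  length and of the input (`OneAdv`).

So, for every space-bounded class `C` with advice (`SpaceClassAdv`), in particular for
polylogarithmic space with polynomial advice, and for every class `D` between `P` and `PSPACE`, there
is an oracle near which `D` stays in `C` if and only if `g` is bounded by a polynomial.

Proof of the first part. Pointers of `n ^ (b + 2)` bits and the bits to which they point are planted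
at random into `O`, for polynomially many inputs of length `n`. An algorithm with `n ^ b` bits of
memory and a given advice string has, for all these inputs together, only `2 ^ (2 n + n ^ b + 1)`
possible questions, which do not depend on the oracle; so it hardly ever asks one of the final
questions.
-/

set_option autoImplicit false

namespace Pool.Agent.Results.MP_807b32_lc.ChangesOfEveryOracle

open Pool.Agent.NPC Pool.Agent.H620R2.Gauge Pool.Agent.TH707.OB Pool.Agent.TH707.EO
open Pool.Agent.W900.CH (Close)
open Filter

theorem result (g : ℕ → ℝ) :
    ((¬ ∃ c : ℕ, ∀ᶠ n : ℕ in atTop, ∃ m ≥ n, g m ≤ (n : ℝ) ^ c) →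
      ∀ G : Set (List Bool → List Bool), G.Countable → ∀ O : Oracle, ∃ A : Oracle,
        Close g O A ∧ ∀ b : ℕ, ∃ L, IsP A L ∧
          ∀ c : ℕ, ¬ InSpace G (fun n => n ^ b) (fun n => n ^ c) A L) ∧
    ((∃ c : ℕ, ∀ᶠ n : ℕ in atTop, ∃ m ≥ n, g m ≤ (n : ℝ) ^ c) →
      ∃ O : Oracle, ∀ A : Oracle, Close g O A → ∀ L, IsPSPACE A L → OneAdv A L) ∧
    (∀ C, SpaceClassAdv C → ∀ D : Oracle → Set (List Bool) → Prop,
      (∀ A L, IsP A L → D A L) → (∀ A L, D A L → IsPSPACE A L) →
      ((∃ O : Oracle, ∀ A : Oracle, Close g O A → ∀ L, D A L → C A L) ↔
        ∃ c : ℕ, ∀ᶠ n : ℕ in atTop, ∃ m ≥ n, g m ≤ (n : ℝ) ^ c)) ∧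
    SpaceClassAdv PolylogSpaceAdv := by
  refine ⟨fun hg G hG O => many_S hg G hG O, fun hg => few_S hg, ?_, spaceClassAdv_polylog⟩
  intro C hC D hD1 hD2
  constructor
  · rintro ⟨O, hO⟩
    by_contra hg
    obtain ⟨-, G, b, hG, h⟩ := hC
    obtain ⟨A, hA, h1⟩ := many_S hg G hG O
    obtain ⟨L, hL, h2⟩ := h1 b
    obtain ⟨c, h3⟩ := h A L (hO A hA L (hD1 A L hL))
    exact h2 c h3
  · intro hg
    obtain ⟨O, hO⟩ := few_S hg
    exact ⟨O, fun A hA L hL => hC.1 A L (hO A hA L (hD2 A L hL))⟩

end Pool.Agent.Results.MP_807b32_lc.ChangesOfEveryOracle
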