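import Pool.Agent.TH707.OB.Polylog

/-!
# The size of the set of the oracles relative to which `P` is contained in polylogarithmic space

The set of the oracles relative to which `P` (or `NP`, or `PSPACE`) is contained in a given
space-bounded class `C` (`SpaceClass`), for instance in polylogarithmic space, is a null set for the
gauge `f` if and only if for every `ε > 0` there are infinitely many `N` with
`f N ≤ 2 ^ ((log N) ^ ε)`. The same holds for all sets of oracles which contain all oracles relative
to which all languages in `PSPACE` are read off from the oracle by one question (`OneQuestion`), and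
in which, for some `b`, all languages in `P` are decided in nondeterministic space `n ^ b` with
advice of length `2 ^ n / 8` by algorithms that are built from the functions of a fixed countable
set (`InSpace`).
-/

set_option autoImplicit false

namespace Pool.Agent.Results.MP_807b32_lc.GaugeThreshold

open Pool.Agent.NPC Pool.Agent.H620R2.Gauge Pool.Agent.TH707.OB
open Filter

theorem result (f : ℕ → ℝ) :
    (∀ C, SpaceClass C → ∀ D : Oracle → Set (List Bool) → Prop,
      (∀ A L, IsP A L → D A L) → (∀ A L, D A L → IsPSPACE A L) →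
      (Null f {A : Oracle | ∀ L, D A L → C A L} ↔
        ∀ ε : ℝ, 0 < ε → ∃ᶠ N : ℕ in atTop, f N ≤ 2 ^ ((Real.logb 2 N) ^ ε))) ∧
    (∀ (S : Set Oracle) (G : Set (List Bool → List Bool)), G.Countable →
      (∀ A : Oracle, (∀ L, IsPSPACE A L → OneQuestion A L) → A ∈ S) →
      (∀ A ∈ S, ∃ b : ℕ, ∀ L, IsP A L →
        InSpace G (fun n => n ^ b) (fun n => 2 ^ n / 8) A L) →
      (Null f S ↔
        ∀ ε : ℝ, 0 < ε → ∃ᶠ N : ℕ in atTop, f N ≤ 2 ^ ((Real.logb 2 N) ^ ε))) ∧
    SpaceClass PolylogSpace := by
  refine ⟨fun C hC D h1 h2 => ?_, fun S G hG h1 h2 => gaugeB f S h1 hG h2, spaceClass_polylog⟩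
  obtain ⟨h3, G, b, hG, h4⟩ := hC
  exact gaugeB f _ (fun A hA L hL => h3 A L (hA L (h2 A L hL))) hG
    fun A hA => ⟨b, fun L hL => h4 A L (hA L (h1 A L hL))⟩

end Pool.Agent.Results.MP_807b32_lc.GaugeThreshold
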