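import Pool.Agent.TH679.TS.AsymShort

/-!
# P versus nondeterministic space for short computations: a bound which is sharp up to a constant

The problem: a stack of `j + 1` butterfly networks with `n = 2 ^ d` nodes in each level; each node
has a table which gives its value in `Fin k` as a function of the values of its two children (a
constant for the nodes of level 0). Has the value of the top node the property `S`?

We consider arbitrary nondeterministic branching programs (the logarithm of the size is the space,
acceptance is semantic, no variable is excluded from being read) for which each accepted input has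
an accepting computation with at most `N ^ θ` steps, `θ < 1 / 4`, where `N` is the number of the
variables. Their space is at least `c * n * log k`. The evaluation level by level is deterministic,
it needs space at most `3 * n * log k` and at most `N ^ δ` steps, where `δ` can be chosen as small
as we please. So for the evaluation of these circuits nondeterminism saves only a constant factor
of the space of the best known deterministic algorithm. The starting file `NondetTimeSpaceDag` has
for pyramids the bound `N ^ ε` for the space of such programs, and in general, for a graph which
needs `p` pebbles, the order `p * log k / log T`; here the factor `1 / log T` does not occur.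

Proof. By the theorem of the starting files there is a hierarchy of sets for the dyadic intervals of
the computation, such that the sets of an interval of length 1 contain all nodes but one, the
boundaries (elements with a parent outside) have at most `φ` elements, `φ` of the order of
`space / log k`, and the set of the whole computation contains no node below the top. If at
least `4 φ` nodes of the level `(i + 1) d` are outside of the set of an interval, then, counting the
walks through the butterfly network between the levels `i d` and `(i + 1) d`, three quarters of the
nodes of the level `i d` are outside as well, hence at least `4 φ` nodes of this level are outside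
of the set of one of the two halves of the interval, if `11 φ ≤ n`. So the hierarchy has more than
`j` levels, i.e. more than `2 ^ j` steps.
-/

set_option autoImplicit false

namespace Pool.Agent.Results.MP_807b32_lc.NondetSavesConstant

open Pool.Agent.TH679.PD
open Pool.Agent.TH679.TS
open Pool.Agent.W994.DE.Dag
open Pool.Agent.H554R2.Thrifty (BP)

/-- (1) Let `v` be the number of nodes of the stack of `j + 1` butterflies with `2 ^ d` nodes in each
level and `τ ≤ j`. Let `P` be a nondeterministic program with at most `2 ^ s` states which decides a
nontrivial property of the value of the top node, such that each accepted input has an accepting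
computation with at most `T = 2 ^ τ` steps. If `(8 T ^ 2 v (v + 1)) ^ (m + 1) ≤ k ^ m` and
`16 T ^ 2 (v + 1) < k`, then `2 ^ d < 11 (m + 1) (3 + 2 s / log k)`.

(2) Let `0 ≤ θ < 1 / 4` and `δ > 0`. There are `C` and `c > 0` such that for all large `d`, with
`j = C d`, `k = 2 ^ (C d)`, `N` the number of variables, and for each nontrivial property `S` of the
value of the top node: a nondeterministic program for which every accepted input has an accepting
computation with at most `N ^ θ` steps needs space (log size) at least `c * 2 ^ d * log k`; there is
a deterministic program with at most `N ^ δ` steps which reads only relevant variables and needs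
space at most `3 * 2 ^ d * log k`. -/
theorem result :
    (∀ (d j k τ s m : ℕ) [NeZero d] (S : Fin k → Bool), (∃ a, S a = true) → (∃ b, S b = false) →
      τ ≤ j →
      (8 * 4 ^ τ * Fintype.card (bfly d ((j + 1) * d)).V *
        (Fintype.card (bfly d ((j + 1) * d)).V + 1)) ^ (m + 1) ≤ k ^ m →
      16 * 4 ^ τ * (Fintype.card (bfly d ((j + 1) * d)).V + 1) < k →
      ∀ P : BP ((bfly d ((j + 1) * d)).Var k) k, Decides P (top d j) S →
        (∀ x, S (value x (top d j)) = true → ∃ l, P.IsComp x l true ∧ l.length ≤ 2 ^ τ) →
        P.size ≤ 2 ^ s → 2 ^ d < 11 * ((m + 1) * (3 + 2 * s / Nat.log 2 k))) ∧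
    (∀ θ δ : ℝ, 0 ≤ θ → θ < 1 / 4 → 0 < δ → ∃ (C : ℕ) (c : ℝ) (d₀ : ℕ), 0 < c ∧
      ∀ (d : ℕ) [NeZero d], d₀ ≤ d → ∀ j k N : ℕ, j = C * d → k = 2 ^ (C * d) →
      N = Fintype.card ((bfly d ((j + 1) * d)).Var k) →
      ∀ (S : Fin k → Bool), (∃ a, S a = true) → (∃ b, S b = false) →
      (∀ P : BP ((bfly d ((j + 1) * d)).Var k) k, Decides P (top d j) S →
        (∀ x, S (value x (top d j)) = true →
          ∃ l, P.IsComp x l true ∧ (l.length : ℝ) ≤ (N : ℝ) ^ θ) →
        c * (2 ^ d * Real.logb 2 k) ≤ Real.logb 2 P.size) ∧
      ∃ P : BP ((bfly d ((j + 1) * d)).Var k) k, P.Deterministic ∧
        P.Solves (fun x => S (value x (top d j))) ∧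
        (∀ x l R, P.IsComp x l R → (l.length : ℝ) ≤ (N : ℝ) ^ δ ∧
          ∀ q ∈ l, Relevant x (P.query q)) ∧
        Real.logb 2 P.size ≤ 3 * (2 ^ d * Real.logb 2 k)) :=
  ⟨fun _ _ _ _ _ _ _ _ ⟨_, ha⟩ ⟨_, hb⟩ hτ hk hk' _ hP hT hs =>
      law_short hP ha hb hT hs hτ hk hk',
    fun θ δ h1 h2 h3 => asym_short θ δ h1 h2 h3⟩

end Pool.Agent.Results.MP_807b32_lc.NondetSavesConstant
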